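import Pool.Agent.H6.GS2.Targets
import Pool.Agent.H6.GS2.Bas
import Pool.Agent.H91.BS.ESM

set_option autoImplicit false

namespace Pool.Agent.H30.GSW

open Finset Pool.Agent.H6.N4D Pool.Agent.H93 Pool.Agent.H93.GS Pool.Agent.H6.GS2

private theorem ker_card_ge (q N n : ℕ) (hq : 1 ≤ q) :
    (N : ℝ) - q ≤ (((Ioc n (n + N)).filter (fun m => q ∣ m)).card : ℝ) * q := by
  have h : ((Ioc n (n + N)).filter (fun m => q ∣ m)).card = (n + N) / q - n / q := by
    have h1 := Nat.Ioc_filter_dvd_card_eq_div (n + N) q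
    have h2 := Nat.Ioc_filter_dvd_card_eq_div n q
    have h3 : (Ioc 0 (n + N)).filter (fun m => q ∣ m) =
        (Ioc 0 n).filter (fun m => q ∣ m) ∪ (Ioc n (n + N)).filter (fun m => q ∣ m) := by
      rw [← filter_union, Ioc_union_Ioc_eq_Ioc (Nat.zero_le _) (by omega)]
    have h4 : Disjoint ((Ioc 0 n).filter (fun m => q ∣ m))
        ((Ioc n (n + N)).filter (fun m => q ∣ m)) := by
      apply disjoint_filter_filter
      rw [Finset.disjoint_left]
      intro m h5 h6
      rw [mem_Ioc] at h5 h6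
      omega
    have h5 := card_union_of_disjoint h4
    rw [← h3, h1, h2] at h5
    omega
  rw [h]
  have h7 : N ≤ ((n + N) / q - n / q) * q + q := by
    have h8 : n / q * q ≤ n := Nat.div_mul_le_self _ _
    have h9 : n + N < ((n + N) / q + 1) * q := by
      have := Nat.lt_div_mul_add (a := n + N) (b := q) (by omega)
      nlinarith
    have h10 : n / q ≤ (n + N) / q := Nat.div_le_div_right (by omega)
    rw [Nat.sub_mul]
    have : ((n + N) / q + 1) * q = (n + N) / q * q + q := by ring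
    have h11 : n / q * q ≤ (n + N) / q * q := Nat.mul_le_mul_right _ h10
    omega
  have h12 : (N : ℝ) ≤ (((n + N) / q - n / q : ℕ) : ℝ) * q + q := by exact_mod_cast h7
  linarith

/-- the mean with the kernel is a difference of two means -/
private theorem ker_split (q N n : ℕ) (F : ℕ → ℂ) :
    ac 1 N n (fun m => (EB.D q m : ℂ) * F m) = ac q N n F - ac 1 N n F := by
  unfold ac EB.D
  have h1 : (Ioc n (n + N)).filter (fun m => 1 ∣ m) = Ioc n (n + N) := by
    ext m; simp
  rw [h1]
  have h2 : ∑ m ∈ Ioc n (n + N), (((if q ∣ m then (q : ℝ) else 0) - 1 : ℝ) : ℂ) * F m =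
      (∑ m ∈ (Ioc n (n + N)).filter (fun m => q ∣ m), F m) * q - ∑ m ∈ Ioc n (n + N), F m := by
    rw [sum_filter, sum_mul, ← sum_sub_distrib]
    refine sum_congr rfl fun m _ => ?_
    split_ifs <;> push_cast <;> ring
  rw [h2]
  push_cast
  ring

theorem pf_KER (hG : T_GEX) : T_KER := by
  intro q N n γ hq hqN
  have hN1 : 1 ≤ N := hq.trans hqN
  have hN0 : (0 : ℝ) < N := by exact_mod_cast hN1
  have hq0 : (0 : ℝ) < q := by exact_mod_cast hq
  refine ⟨?_, ?_, ?_⟩
  · have h0 := ker_split q N n (fun _ => 1)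
    simp only [mul_one] at h0
    rw [h0]
    unfold ac
    have h1 : (Ioc n (n + N)).filter (fun m => 1 ∣ m) = Ioc n (n + N) := by
      ext m; simp
    rw [h1]
    simp only [sum_const, nsmul_eq_mul, mul_one, Nat.card_Ioc, Nat.add_sub_cancel_left,
      Nat.cast_one]
    have h2 := card_mul_le q N n hq
    have h3 := ker_card_ge q N n hq
    set c : ℕ := ((Ioc n (n + N)).filter (fun m => q ∣ m)).card with hc
    have h4 : ((c : ℂ) * q / N - (N : ℂ) / N) = (((c * q - N) / N : ℝ) : ℂ) := by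
      push_cast; ring
    rw [h4, Complex.norm_real, Real.norm_eq_abs, abs_div, abs_of_pos hN0]
    refine div_le_div_of_nonneg_right ?_ hN0.le
    rw [abs_le]
    constructor <;> linarith
  · intro hnd
    rw [ker_split q N n]
    have h1 := hG q N n γ hq hN1 hnd
    have h2 : nd (q * γ) ≤ q * nd γ := nd_nat_mul_le q γ
    have hγ : 0 < nd γ := by
      by_contra h
      have : nd γ = 0 := le_antisymm (not_lt.1 h) (nd_nonneg _)
      rw [this, mul_zero] at h2
      linarith
    have h3 := hG 1 N n γ le_rfl hN1 (by rw [Nat.cast_one, one_mul]; exact hγ)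
    rw [Nat.cast_one, one_mul] at h3
    have h4 : 1 / (2 * N * nd γ) ≤ q / (2 * N * nd (q * γ)) := by
      rw [div_le_div_iff₀ (by positivity) (by positivity)]
      nlinarith [mul_le_mul_of_nonneg_left h2 (by positivity : (0 : ℝ) ≤ 2 * N)]
    refine (norm_sub_le _ _).trans ?_
    have h5 : (q : ℝ) / (N * nd (q * γ)) = q / (2 * N * nd (q * γ)) + q / (2 * N * nd (q * γ)) := by
      field_simp; norm_num
    rw [h5]
    exact add_le_add h1 (h3.trans h4)
  · intro ζ hζ hb
    have hD : ∀ m : ℕ, (EB.D q m : ℂ) * ee (γ * m) =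
        ∑ b ∈ Ico 1 q, ee ((γ - ((-(b : ℤ) : ℤ) : ℝ) / q) * m) := by
      intro m
      have h1 := Pool.Agent.H91.BS.pf_DQF q m hq
      unfold Pool.Agent.H21.BS.DD at h1
      have h2 : (EB.D q m : ℂ) = (if q ∣ m then (q : ℂ) else 0) - 1 := by
        unfold EB.D; split_ifs <;> push_cast <;> rfl
      rw [h2, h1, sum_mul]
      refine sum_congr rfl fun b _ => ?_
      rw [← ee_add]
      congr 1
      push_cast
      ring
    have h1 : (fun m : ℕ => (EB.D q m : ℂ) * ee (γ * m)) =
        fun m : ℕ => ∑ b ∈ Ico 1 q, ee ((γ - ((-(b : ℤ) : ℤ) : ℝ) / q) * m) := funext hD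
    rw [h1, ac_sum]
    refine (norm_sum_le _ _).trans ?_
    have h2 : ∀ b ∈ Ico 1 q, ‖ac 1 N n (fun m : ℕ =>
        ee ((γ - ((-(b : ℤ) : ℤ) : ℝ) / q) * m))‖ ≤ 1 / (2 * ζ) := by
      intro b hb1
      rw [mem_Ico] at hb1
      have hnb : ¬ ((q : ℤ) ∣ -(b : ℤ)) := by
        rw [dvd_neg, Int.natCast_dvd_natCast]
        intro h
        have := Nat.le_of_dvd (by omega) h
        omega
      have h3 := hb (-(b : ℤ)) hnb
      have h4 : 0 < ζ / N := by positivity
      have h5 := hG 1 N n (γ - ((-(b : ℤ) : ℤ) : ℝ) / q) le_rfl hN1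
        (by rw [Nat.cast_one, one_mul]; exact h4.trans_le h3)
      rw [Nat.cast_one, one_mul] at h5
      refine h5.trans ?_
      rw [div_le_div_iff₀ (by have := h4.trans_le h3; positivity) (by positivity)]
      rw [div_le_iff₀ hN0] at h3
      nlinarith
    refine (sum_le_sum h2).trans ?_
    rw [sum_const, Nat.card_Ico, nsmul_eq_mul, Nat.cast_sub hq, Nat.cast_one, mul_one_div]
    refine div_le_div_of_nonneg_right (by linarith) (by positivity)

end Pool.Agent.H30.GSW
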